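import Pool.Agent.Helper96.SE.Goals

/-!
# Packet SE-TRS (MP_e44225_nt): a point of the superelliptic curve over a rational point of the line
-/

open NumberField Height
open Pool.Agent.Results.MP_e44225_nt.SUnitDisproof (logPlus Place nabs Above)
open Pool.Agent.Helper96.SE

namespace Pool.Agent.Helper70.SE

universe u

section above

variable {k K : Type u} [Field k] [NumberField k] [Field K] [NumberField K] [Algebra k K]

lemma above_unique {v v' : Place k} {w : Place K} (h : Above v w) (h' : Above v' w) : v = v' := by
  rcases h with ⟨a, b, rfl, rfl, h⟩ | ⟨a, b, rfl, rfl, h⟩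
  · rcases h' with ⟨a', b', rfl, hb, h'⟩ | ⟨a', b', rfl, hb, h'⟩
    · obtain rfl := Sum.inl_injective hb
      rw [← h, ← h']
    · simp at hb
  · rcases h' with ⟨a', b', rfl, hb, h'⟩ | ⟨a', b', rfl, hb, h'⟩
    · simp at hb
    · obtain rfl := Sum.inr_injective hb
      congr 1
      have e : a.maximalIdeal = a'.maximalIdeal := by
        apply IsDedekindDomain.HeightOneSpectrum.ext
        rw [h.over, h'.over]
      exact FinitePlace.maximalIdeal_injective e

lemma places_above (hPLI : PLI.{u}) (hPLF : PLF.{u}) (v : Place k) :
    {w : Place K | Above v w}.Finite ∧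
    ∀ x : k, ∑ᶠ w ∈ {w : Place K | Above v w}, logPlus (nabs w (algebraMap k K x)) =
        (Module.finrank k K : ℝ) * logPlus (nabs v x) := by
  rcases v with v | v
  · exact hPLI k K v
  · exact hPLF k K v

lemma sum_weil (hPLI : PLI.{u}) (hPLF : PLF.{u}) (n : ℕ) (E : Finset k) (S : Finset (Place k))
    (x : k) :
    ∑ᶠ w ∈ {w : Place K | ∃ v ∈ S, Above v w}, weil n E w (algebraMap k K x) =
      (Module.finrank k K : ℝ) * prox₀ n E S x := by
  have e : {w : Place K | ∃ v ∈ S, Above v w} = ⋃ v ∈ (S : Set (Place k)), {w : Place K | Above v w} := by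
    ext w; simp
  rw [e, finsum_mem_biUnion, finsum_mem_coe_finset, prox₀, Finset.mul_sum]
  · refine Finset.sum_congr rfl fun v _ => ?_
    obtain ⟨hf, hs⟩ := places_above (K := K) hPLI hPLF v
    have hs' : ∀ x : k, ∑ w ∈ hf.toFinset, logPlus (nabs w (algebraMap k K x)) =
        (Module.finrank k K : ℝ) * logPlus (nabs v x) := by
      intro x
      rw [← hs x, finsum_mem_eq_finite_toFinset_sum _ hf]
    rw [finsum_mem_eq_finite_toFinset_sum _ hf]
    simp only [weil]
    rw [Finset.sum_add_distrib, ← Finset.sum_div, hs', Finset.sum_comm, mul_add, Finset.mul_sum]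
    congr 1
    · ring
    · refine Finset.sum_congr rfl fun a _ => ?_
      rw [← Finset.sum_div]
      simp only [← map_sub, ← map_inv₀]
      rw [hs']
      ring
  · intro v _ v' _ hv
    rw [Function.onFun, Set.disjoint_left]
    intro w h h'
    exact hv (above_unique h h')
  · exact Finset.finite_toSet S
  · intro v _
    exact (places_above hPLI hPLF v).1

end above

theorem trs : PLI.{u} → PLF.{u} → HTE.{u} → DSC.{u} → TRS.{u} := by
  intro hPLI hPLF hHTE hDSC k _ _ n E c x z b hn hx hz hb hbe
  obtain ⟨y, hy⟩ := IsAlgClosed.exists_pow_nat_eq (algebraMap k (AlgebraicClosure k) (ff E c x))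
    (n := n) (by omega)
  let P : Pt n E c := ⟨algebraMap k (AlgebraicClosure k) x, y, by
    rw [hy, ff, map_mul, map_prod]; simp, by
    intro a ha h
    exact hx (by rw [(algebraMap k (AlgebraicClosure k)).injective h]; exact ha)⟩
  have hK : resField P = IntermediateField.adjoin k {y} := by
    apply le_antisymm
    · rw [resField, IntermediateField.adjoin_le_iff]
      rintro t (rfl | rfl)
      · exact IntermediateField.algebraMap_mem _ x
      · exact IntermediateField.mem_adjoin_simple_self k _
    · apply IntermediateField.adjoin.mono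
      rintro t rfl
      exact Set.mem_insert_of_mem _ rfl
  have hxR : xRes P = algebraMap k (resField P) x := Subtype.ext rfl
  have hpos : 0 < deg P := Module.finrank_pos
  have hpos' : (0 : ℝ) < deg P := by exact_mod_cast hpos
  refine ⟨P, rfl, ?_, ?_, ?_, ?_⟩
  · rw [deg, hK, IntermediateField.adjoin.finrank (Algebra.IsIntegral.isIntegral y)]
    have h1 : minpoly k y ∣ Polynomial.X ^ n - Polynomial.C (ff E c x) := by
      apply minpoly.dvd
      simp [hy]
    calc (minpoly k y).natDegree ≤ (Polynomial.X ^ n - Polynomial.C (ff E c x)).natDegree :=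
          Polynomial.natDegree_le_of_dvd h1 (Polynomial.X_pow_sub_C_ne_zero (by omega) _)
      _ = n := Polynomial.natDegree_X_pow_sub_C
  · rw [ht, hxR, hHTE, ← deg]
    field_simp
  · intro S
    rw [prox, hxR, sum_weil hPLI hPLF, ← deg]
    field_simp
  · let Y : resField P := ⟨y, by rw [hK]; exact IntermediateField.mem_adjoin_simple_self k _⟩
    let t : resField P := algebraMap k (resField P) z * Y
    have ht : t ^ n = algebraMap k (resField P) (b : k) := by
      have h1 : Y ^ n = algebraMap k (resField P) (ff E c x) := Subtype.ext hy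
      rw [mul_pow, h1, hbe, map_mul, map_pow]
    have hti : IsIntegral ℤ t := by
      apply IsIntegral.of_pow (n := n) (by omega)
      rw [ht]
      exact (RingOfIntegers.isIntegral_coe b).map (algebraMap k (resField P)).toIntAlgHom
    let t' : 𝓞 (resField P) := ⟨t, hti⟩
    have ht' : t' ^ n = algebraMap (𝓞 k) (𝓞 (resField P)) b := by
      apply RingOfIntegers.ext
      have e1 : ((t' ^ n : 𝓞 (resField P)) : resField P) = t ^ n :=
        map_pow (algebraMap (𝓞 (resField P)) (resField P)) t' n
      exact e1.trans ht
    have hadj : IntermediateField.adjoin k {(t' : resField P)} = ⊤ := by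
      apply IntermediateField.lift_injective
      rw [IntermediateField.lift_adjoin, IntermediateField.lift_top]
      have h1 : (Subtype.val '' {(t' : resField P)} : Set (AlgebraicClosure k)) =
          {algebraMap k (AlgebraicClosure k) z * y} := by
        rw [Set.image_singleton]
        rfl
      rw [h1]
      refine Eq.trans ?_ hK.symm
      apply le_antisymm
      · rw [IntermediateField.adjoin_simple_le_iff]
        exact mul_mem (IntermediateField.algebraMap_mem _ z)
          (IntermediateField.mem_adjoin_simple_self k _)
      · rw [IntermediateField.adjoin_simple_le_iff]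
        have h2 : y = algebraMap k (AlgebraicClosure k) z⁻¹ *
            (algebraMap k (AlgebraicClosure k) z * y) := by
          rw [← mul_assoc, ← map_mul, inv_mul_cancel₀ hz, map_one, one_mul]
        have h3 := mul_mem (IntermediateField.algebraMap_mem
            (IntermediateField.adjoin k {algebraMap k (AlgebraicClosure k) z * y}) z⁻¹)
          (IntermediateField.mem_adjoin_simple_self k (algebraMap k (AlgebraicClosure k) z * y))
        rw [← h2] at h3
        exact h3
    have h := hDSC k (resField P) n b t' hn hb ht' hadj
    rw [logDiscr, div_le_iff₀ hpos']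
    rw [← deg] at h
    linarith

end Pool.Agent.Helper70.SE
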